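import Pool.Agent.T2H83.Fac.Count
import Pool.Agent.R890.FF.BF

set_option autoImplicit false
set_option linter.unusedSectionVars false

/-!
# Graphs in which any eighteen balls meet
-/

namespace Pool.Agent.T2H83.Fac

open Finset Pool.Agent.TH362.TF Pool.Agent.TH362.TF.Four Pool.Agent.R890.FF
open Pool.Agent.TH676.A (Alg FlowOn)

variable {V E : Type}

/-- the vertices different from `v` joined to `v` by an edge -/
def nbrs (s t : E → V) (v : V) : Set V :=
  {w | w ≠ v ∧ ∃ e, (s e = v ∧ t e = w) ∨ (s e = w ∧ t e = v)}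

/-- the ball of `v`: with the neighbours if there are at least seven of them -/
def ball (s t : E → V) (v : V) : Set V :=
  {w | w = v ∨ (7 ≤ (nbrs s t v).ncard ∧ w ∈ nbrs s t v)}

/-- any eighteen vertices, each with a neighbour, include two with intersecting balls -/
def Meet (s t : E → V) : Prop :=
  ∀ x : Fin 18 → V, Function.Injective x → (∀ i, (nbrs s t (x i)).Nonempty) →
    ∃ i j, i ≠ j ∧ (ball s t (x i) ∩ ball s t (x j)).Nonempty

variable [Fintype V] [DecidableEq V] [Fintype E] [DecidableEq E]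

theorem rep {s0 t0 : E → V} {π : V → V}
    (h : Mq (fun e => π (s0 e)) (fun e => π (t0 e)) univ) {v : V}
    (hv : nbs (fun e => π (s0 e)) (fun e => π (t0 e)) univ v ≠ ∅)
    (h6 : (nbs (fun e => π (s0 e)) (fun e => π (t0 e)) univ v).card ≤ 6) :
    ∃ x, (nbrs s0 t0 x).Nonempty ∧ ∀ w ∈ ball s0 t0 x, π w = v := by
  classical
  by_contra hcon
  push Not at hcon
  -- the boundary edges
  set Bd : Finset E := univ.filter (fun e => ¬ (π (s0 e) = v ↔ π (t0 e) = v)) with hBd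
  have hcard : Bd.card ≤ 6 := by
    refine le_trans (le_of_eq ?_) h6
    have h1 := h.cut_nb v
    have h2 : cut (fun e => π (s0 e)) (fun e => π (t0 e)) univ (fun u => decide (u = v)) = Bd := by
      ext e
      unfold cut
      rw [hBd, mem_filter, mem_filter]
      simp [decide_eq_decide]
    rw [h2] at h1
    rw [h1]
    rfl
  set X : Finset V := univ.filter (fun x => π x = v ∧ (nbrs s0 t0 x).Nonempty) with hX
  have hmX : ∀ x, x ∈ X ↔ π x = v ∧ (nbrs s0 t0 x).Nonempty := fun x => by rw [hX, mem_filter]; simp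
  have hXne : X.Nonempty := by
    obtain ⟨z, hz⟩ := nonempty_iff_ne_empty.2 hv
    obtain ⟨hzv, e, -, he⟩ := mem_nbs.1 hz
    change (π (s0 e) = v ∧ π (t0 e) = z) ∨ (π (s0 e) = z ∧ π (t0 e) = v) at he
    rcases he with ⟨h1, h2⟩ | ⟨h1, h2⟩
    · refine ⟨s0 e, (hmX _).2 ⟨h1, t0 e, ?_, e, Or.inl ⟨rfl, rfl⟩⟩⟩
      intro h3
      apply hzv
      rw [← h2, ← h1, h3]
    · refine ⟨t0 e, (hmX _).2 ⟨h2, s0 e, ?_, e, Or.inr ⟨rfl, rfl⟩⟩⟩
      intro h3
      apply hzv
      rw [← h2, ← h1, h3]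
  set out : V → Finset V := fun x => univ.filter (fun w => w ∈ nbrs s0 t0 x ∧ π w ≠ v) with hout
  have hmo : ∀ x w, w ∈ out x ↔ w ∈ nbrs s0 t0 x ∧ π w ≠ v := fun x w => by
    simp only [hout, mem_filter, mem_univ, true_and]
  have hX7 : ∀ x ∈ X, 7 ≤ (nbrs s0 t0 x).ncard ∧ 1 ≤ (out x).card := by
    intro x hx
    obtain ⟨h1, h2⟩ := (hmX x).1 hx
    obtain ⟨w, hw, hwv⟩ := hcon x h2
    rcases hw with rfl | ⟨h3, h4⟩
    · exact absurd h1 hwv
    · exact ⟨h3, card_pos.2 ⟨w, (hmo x w).2 ⟨h4, hwv⟩⟩⟩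
  have hout2 : ∀ x ∈ X, 8 ≤ (out x).card + X.card := by
    intro x hx
    obtain ⟨h1, -⟩ := hX7 x hx
    have h2 : nbrs s0 t0 x ⊆ ((out x ∪ X.erase x : Finset V) : Set V) := by
      intro w hw
      rw [mem_coe, mem_union]
      by_cases h3 : π w = v
      · right
        rw [mem_erase, hmX]
        refine ⟨hw.1, h3, x, Ne.symm hw.1, ?_⟩
        obtain ⟨e, he⟩ := hw.2
        exact ⟨e, he.symm⟩
      · left
        exact (hmo x w).2 ⟨hw, h3⟩
    have h3 := Set.ncard_le_ncard h2 (Finset.finite_toSet _)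
    rw [Set.ncard_coe_finset] at h3
    have h4 := card_union_le (out x) (X.erase x)
    rw [card_erase_of_mem hx] at h4
    have h5 := card_pos.2 hXne
    omega
  -- the pairs
  have hpairs : ∑ x ∈ X, (out x).card ≤ Bd.card := by
    rw [← card_sigma]
    have hex : ∀ p ∈ X.sigma out, ∃ e, (s0 e = p.1 ∧ t0 e = p.2) ∨ (s0 e = p.2 ∧ t0 e = p.1) := by
      intro p hp
      exact ((hmo _ _).1 (mem_sigma.1 hp).2).1.2
    obtain ⟨x0, hx0⟩ := hXne
    obtain ⟨w0, hw0⟩ := card_pos.1 (hX7 x0 hx0).2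
    obtain ⟨e0, -⟩ := hex ⟨x0, w0⟩ (mem_sigma.2 ⟨hx0, hw0⟩)
    have : Nonempty E := ⟨e0⟩
    choose! g hg using hex
    refine card_le_card_of_injOn g (fun p hp => ?_) (fun p hp q hq hpq => ?_)
    · have hp' := mem_sigma.1 hp
      have h1 := ((hmX _).1 hp'.1).1
      have h2 := ((hmo _ _).1 hp'.2).2
      rw [mem_coe, hBd, mem_filter]
      refine ⟨mem_univ _, ?_⟩
      rcases hg p hp with ⟨h3, h4⟩ | ⟨h3, h4⟩
      · rw [h3, h4]
        exact fun h5 => h2 (h5.1 h1)
      · rw [h3, h4]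
        exact fun h5 => h2 (h5.2 h1)
    · have hp' := mem_sigma.1 hp
      have hq' := mem_sigma.1 hq
      have p1 := ((hmX _).1 hp'.1).1
      have p2 := ((hmo _ _).1 hp'.2).2
      have q1 := ((hmX _).1 hq'.1).1
      have q2 := ((hmo _ _).1 hq'.2).2
      have h3 := hg p hp
      have h4 := hg q hq
      rw [← hpq] at h4
      obtain ⟨p1', p2'⟩ := p
      obtain ⟨q1', q2'⟩ := q
      simp only at p1 p2 q1 q2 h3 h4
      have h5 : p1' = q1' ∧ p2' = q2' := by
        rcases h3 with ⟨a, b⟩ | ⟨a, b⟩ <;> rcases h4 with ⟨c, d⟩ | ⟨c, d⟩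
        · exact ⟨a.symm.trans c, b.symm.trans d⟩
        · exact absurd (by rw [← c, a]; exact p1) q2
        · exact absurd (by rw [← c, a] at q1; exact q1) p2
        · exact ⟨b.symm.trans d, a.symm.trans c⟩
      rw [h5.1, h5.2]
  have hm := card_pos.2 hXne
  have hlow : ∀ k : ℕ, (∀ x ∈ X, k ≤ (out x).card) → k * X.card ≤ 6 := by
    intro k hk
    refine le_trans ?_ (hpairs.trans hcard)
    rw [mul_comm, ← smul_eq_mul, ← Finset.sum_const]
    exact Finset.sum_le_sum hk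
  have h1 := hlow 1 (fun x hx => (hX7 x hx).2)
  have h2 := hlow (8 - X.card) (fun x hx => by have := hout2 x hx; omega)
  generalize X.card = m at *
  have hm6 : m ≤ 6 := by omega
  interval_cases m <;> omega

theorem no_Mq {s0 t0 : E → V} (hG : Meet s0 t0) {π : V → V}
    (h : Mq (fun e => π (s0 e)) (fun e => π (t0 e)) univ) : False := by
  classical
  have h18 := low18 h
  set L : Finset V := univ.filter (fun v =>
    nbs (fun e => π (s0 e)) (fun e => π (t0 e)) univ v ≠ ∅ ∧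
      (nbs (fun e => π (s0 e)) (fun e => π (t0 e)) univ v).card ≤ 6) with hL
  obtain ⟨L', hL', hc⟩ := exists_subset_card_eq h18
  have hrep : ∀ v ∈ L', ∃ x, (nbrs s0 t0 x).Nonempty ∧ ∀ w ∈ ball s0 t0 x, π w = v := by
    intro v hv
    have h1 := hL' hv
    rw [hL, mem_filter] at h1
    exact rep h h1.2.1 h1.2.2
  let eqv := L'.equivFinOfCardEq hc
  choose! g hg using hrep
  have hb : ∀ x, x ∈ ball s0 t0 x := fun x => Or.inl rfl
  have hπ : ∀ i : Fin 18, π (g (eqv.symm i)) = (eqv.symm i).1 := fun i =>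
    (hg _ (eqv.symm i).2).2 _ (hb _)
  obtain ⟨i, j, hij, w, hwi, hwj⟩ := hG (fun i => g (eqv.symm i).1) (fun i j hij => by
    have h1 := hπ i
    have h2 := hπ j
    simp only at hij
    rw [hij, h2] at h1
    exact (eqv.symm.injective (Subtype.ext h1)).symm) (fun i => (hg _ (eqv.symm i).2).1)
  have h1 := (hg _ (eqv.symm i).2).2 w hwi
  have h2 := (hg _ (eqv.symm j).2).2 w hwj
  exact hij (eqv.symm.injective (Subtype.ext (h1.symm.trans h2)))

/-- flows with allowed values for graphs in which any eighteen balls meet -/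
theorem flow {Γ : Type} [AddCommGroup Γ] {A : Γ → Prop} (hA : Alg A) {val : Fin 10 → Fin 10 → Γ}
    (hv : Pet A val) (h4 : ∃ σ : F →+ Γ, ∀ x, x ≠ 0 → A (σ x)) (s t : E → V)
    (hN : N1 s t univ) (hG : Meet s t) : FlowOn A s t ∅ ∅ := by
  classical
  refine alg_class hA hv h4 (Cl := fun s' t' => ∃ π : V → V, s' = (fun e => π (s e)) ∧
    t' = (fun e => π (t e))) ?_ ?_ _ s t rfl ⟨id, rfl, rfl⟩ hN
  · rintro s' t' π ⟨ρ, rfl, rfl⟩
    exact ⟨fun v => π (ρ v), rfl, rfl⟩
  · rintro s' t' ⟨ρ, rfl, rfl⟩ h3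
    by_contra hcon
    push Not at hcon
    obtain ⟨π, hπ⟩ := exists_Mq _ _ univ h3 hcon.1 hcon.2
    exact no_Mq hG (π := fun v => π (ρ v)) hπ

end Pool.Agent.T2H83.Fac
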