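import Pool.Agent.T2H83.Fac.Sparse

set_option autoImplicit false
set_option linter.unusedSectionVars false

/-!
# Minimal quotients without nowhere-zero flow over the group of order four have at least 18
vertices with at most six edges
-/

namespace Pool.Agent.T2H83.Fac

open Finset Pool.Agent.TH362.TF Pool.Agent.TH362.TF.Four Pool.Agent.R890.FF

variable {V E : Type} [Fintype V] [DecidableEq V] [DecidableEq E] {s t : E → V} {S : Finset E}

open Classical in
/-- the neighbours of `v` -/
noncomputable def nbs (s t : E → V) (S : Finset E) (v : V) : Finset V :=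
  univ.filter (Nb s t S v)

theorem mem_nbs {v w : V} : w ∈ nbs s t S v ↔ Nb s t S v w := by
  classical
  unfold nbs
  rw [mem_filter]
  exact ⟨fun h => h.2, fun h => ⟨mem_univ _, h⟩⟩

theorem nbs_sum (h : Mq s t S) : ∑ v, (nbs s t S v).card = 2 * (ins s t S univ).card := by
  classical
  have h1 : ∀ v, (nbs s t S v).card =
      ∑ e ∈ S, (if decide (s e = v) ≠ decide (t e = v) then 1 else 0) := by
    intro v
    unfold nbs
    rw [← h.cut_nb v]
    unfold cut
    rw [card_filter]
  simp only [h1]
  rw [Finset.sum_comm]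
  unfold ins
  rw [card_filter, Finset.mul_sum]
  refine Finset.sum_congr rfl fun e _ => ?_
  by_cases he : s e = t e
  · rw [he]
    simp
  · have h2 : ∀ v, (if decide (s e = v) ≠ decide (t e = v) then 1 else 0 : ℕ) =
        (if s e = v then 1 else 0) + (if t e = v then 1 else 0) := by
      intro v
      by_cases h3 : s e = v
      · have h4 : ¬ t e = v := fun h4 => he (h3.trans h4.symm)
        simp [h3, h4]
      · by_cases h4 : t e = v <;> simp [h3, h4]
    simp only [h2, Finset.sum_add_distrib, Finset.sum_ite_eq, mem_univ, if_true]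
    simp [he]

/-- the union of the neighbourhoods of the neighbours of `v` -/
theorem big (h : Mq s t S) (v : V) (A : Finset V) (hA : ∀ u, nbs s t S u ≠ ∅ → u ∈ A)
    (hv : nbs s t S v ≠ ∅) (h3 : ∀ u, nbs s t S u ≠ ∅ → 3 ≤ (nbs s t S u).card) :
    1 + 3 * (nbs s t S v).card ≤ A.card := by
  classical
  have hv0 : v ∉ nbs s t S v := fun h4 => (mem_nbs.1 h4).1 rfl
  set R : Finset V := (nbs s t S v).biUnion (fun u => (nbs s t S u).erase v) with hR
  have hne : ∀ u, u ∈ nbs s t S v → nbs s t S u ≠ ∅ := by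
    intro u hu h4
    have : v ∈ nbs s t S u := mem_nbs.2 (nb_comm (mem_nbs.1 hu))
    rw [h4] at this
    exact absurd this (notMem_empty _)
  have hRc : 2 * (nbs s t S v).card ≤ R.card := by
    rw [hR, card_biUnion]
    · calc 2 * (nbs s t S v).card = ∑ _u ∈ nbs s t S v, 2 := by
            rw [Finset.sum_const, smul_eq_mul, mul_comm]
        _ ≤ _ := Finset.sum_le_sum fun u hu => by
            have h4 := h3 u (hne u hu)
            have h5 : v ∈ nbs s t S u := mem_nbs.2 (nb_comm (mem_nbs.1 hu))
            rw [card_erase_of_mem h5]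
            omega
    · intro u hu w hw huw
      show Disjoint ((nbs s t S u).erase v) ((nbs s t S w).erase v)
      rw [disjoint_left]
      intro z hz1 hz2
      rw [mem_erase, mem_nbs] at hz1 hz2
      exact h.four (a := v) (b := u) (c := z) (d := w) (Ne.symm hz1.1) huw (mem_nbs.1 hu) hz1.2
        (nb_comm hz2.2) (nb_comm (mem_nbs.1 hw))
  have hdis : Disjoint (nbs s t S v) R := by
    rw [disjoint_left]
    intro z hz1 hz2
    rw [hR, mem_biUnion] at hz2
    obtain ⟨u, hu, hz⟩ := hz2
    rw [mem_erase, mem_nbs] at hz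
    exact h.tri (mem_nbs.1 hu) hz.2 (nb_comm (mem_nbs.1 hz1))
  have hvR : v ∉ nbs s t S v ∪ R := by
    rw [mem_union]
    rintro (h4 | h4)
    · exact hv0 h4
    · rw [hR, mem_biUnion] at h4
      obtain ⟨u, _, hz⟩ := h4
      exact (mem_erase.1 hz).1 rfl
  have hsub : insert v (nbs s t S v ∪ R) ⊆ A := by
    intro z hz
    rw [mem_insert, mem_union] at hz
    rcases hz with rfl | hz | hz
    · exact hA z hv
    · exact hA z (hne z hz)
    · rw [hR, mem_biUnion] at hz
      obtain ⟨u, hu, hz⟩ := hz
      rw [mem_erase, mem_nbs] at hz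
      refine hA z fun h4 => ?_
      have : u ∈ nbs s t S z := mem_nbs.2 (nb_comm hz.2)
      rw [h4] at this
      exact absurd this (notMem_empty _)
  have h4 := card_le_card hsub
  rw [card_insert_of_notMem hvR, card_union_of_disjoint hdis] at h4
  omega

/-- at least 18 vertices have at most six edges (and at least three) -/
theorem low18 (h : Mq s t S) :
    18 ≤ (univ.filter (fun v => nbs s t S v ≠ ∅ ∧ (nbs s t S v).card ≤ 6)).card := by
  classical
  set A : Finset V := univ.filter (fun v => nbs s t S v ≠ ∅) with hA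
  set L : Finset V := univ.filter (fun v => nbs s t S v ≠ ∅ ∧ (nbs s t S v).card ≤ 6) with hL
  have hmA : ∀ v, v ∈ A ↔ nbs s t S v ≠ ∅ := fun v => by rw [hA, mem_filter]; simp
  have hmL : ∀ v, v ∈ L ↔ nbs s t S v ≠ ∅ ∧ (nbs s t S v).card ≤ 6 := fun v => by
    rw [hL, mem_filter]; simp
  have h3 : ∀ u, nbs s t S u ≠ ∅ → 3 ≤ (nbs s t S u).card := by
    intro u hu
    have h0 : (nbs s t S u).card ≠ 0 := by rwa [Ne, card_eq_zero]
    have h1 : (nbs s t S u).card ≠ 1 := h.nb_ne_one u
    have h2 : (nbs s t S u).card ≠ 2 := h.nb_ne_two u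
    omega
  by_contra hcon
  push Not at hcon
  -- at least 18 vertices
  have h18 : 18 ≤ A.card := by
    refine h.odd18.trans (card_le_card fun v hv => ?_)
    rw [hmA]
    intro h0
    have h5 := (h.odd_nb v).1 hv
    have h6 : (univ.filter (Nb s t S v)).card = 0 := by
      rw [card_eq_zero]
      exact h0
    rw [h6] at h5
    exact absurd h5 (by decide)
  have hsp := sparse h A.card A rfl (by omega)
  have hins : ins s t S A = ins s t S univ := by
    ext e
    rw [mem_ins, mem_ins]
    constructor
    · rintro ⟨h1, -, -, h4⟩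
      exact ⟨h1, mem_univ _, mem_univ _, h4⟩
    · rintro ⟨h1, -, -, h4⟩
      refine ⟨h1, ?_, ?_, h4⟩
      · rw [hmA]
        intro h0
        have : t e ∈ nbs s t S (s e) := mem_nbs.2 ⟨Ne.symm h4, e, h1, Or.inl ⟨rfl, rfl⟩⟩
        rw [h0] at this
        exact absurd this (notMem_empty _)
      · rw [hmA]
        intro h0
        have : s e ∈ nbs s t S (t e) := mem_nbs.2 ⟨h4, e, h1, Or.inr ⟨rfl, rfl⟩⟩
        rw [h0] at this
        exact absurd this (notMem_empty _)
  have hsum := nbs_sum h
  rw [← hins] at hsum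
  have hsA : ∑ v ∈ A, (nbs s t S v).card = 2 * (ins s t S A).card := by
    rw [← hsum]
    refine Finset.sum_subset (subset_univ _) fun v _ hv => ?_
    rw [hmA, not_not] at hv
    rw [hv, card_empty]
  have hLA : L ⊆ A := fun v hv => (hmA v).2 ((hmL v).1 hv).1
  have hsplit := Finset.sum_sdiff hLA (f := fun v => (nbs s t S v).card)
  have hc1 : 3 * L.card ≤ ∑ v ∈ L, (nbs s t S v).card := by
    rw [mul_comm, ← smul_eq_mul, ← Finset.sum_const]
    exact Finset.sum_le_sum fun v hv => h3 v ((hmL v).1 hv).1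
  have hhi : ∀ v ∈ A \ L, 7 ≤ (nbs s t S v).card := by
    intro v hv
    rw [mem_sdiff, hmA, hmL] at hv
    by_contra h7
    exact hv.2 ⟨hv.1, by omega⟩
  have hc2 : 7 * (A \ L).card ≤ ∑ v ∈ A \ L, (nbs s t S v).card := by
    rw [mul_comm, ← smul_eq_mul, ← Finset.sum_const]
    exact Finset.sum_le_sum hhi
  have hcard := card_sdiff_add_card_eq_card hLA
  rcases (A \ L).eq_empty_or_nonempty with h0 | ⟨v, hv⟩
  · rw [h0, card_empty] at hcard
    omega
  · have h7 := hhi v hv
    have h8 := big h v A (fun u hu => (hmA u).2 hu) ((hmA v).1 (mem_sdiff.1 hv).1) h3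
    omega

end Pool.Agent.T2H83.Fac
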