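import Pool.Agent.R890.FF.Min
import Pool.Agent.X42.FlowT2

set_option autoImplicit false
set_option linter.unusedSectionVars false

/-!
# Minimal quotients without nowhere-zero flow over the group of order four are sparse

`n ≥ 2` vertices span at most `2 n - 3` edges (two disjoint spanning trees and a flow of the
quotient would give a flow).
-/

namespace Pool.Agent.T2H83.Fac

open Finset Pool.Agent.TH362.TF Pool.Agent.TH362.TF.Four Pool.Agent.R890.FF
open Pool.Agent.X42.FlowT2 (Spans two_trees)

theorem ext_span {W E : Type} [Fintype W] [DecidableEq W] [Fintype E] [DecidableEq E]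
    (src dst : E → W) (I : Finset E) (hI : Spans src dst I) (β : W → ZMod 2)
    (hβ : ∑ v, β v = 0) :
    ∃ z : E → ZMod 2, (∀ e, e ∉ I → z e = 1) ∧
      ∀ v, ∑ e, ((if src e = v then z e else 0) + (if dst e = v then z e else 0)) = β v := by
  classical
  set b : W → ZMod 2 := fun v => β v +
    ∑ e ∈ univ \ I, ((if src e = v then (1 : ZMod 2) else 0) + (if dst e = v then 1 else 0))
    with hb
  have h0 : ∑ v, b v = 0 := by
    rw [hb, Finset.sum_add_distrib, hβ, zero_add, Finset.sum_comm]
    refine Finset.sum_eq_zero fun e _ => ?_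
    rw [Finset.sum_add_distrib, Finset.sum_ite_eq, Finset.sum_ite_eq, if_pos (mem_univ _),
      if_pos (mem_univ _)]
    exact CharTwo.add_self_eq_zero _
  obtain ⟨c, hc⟩ := hI b h0
  refine ⟨fun e => if e ∈ I then c e else 1, fun e he => by simp [he], fun v => ?_⟩
  rw [← Finset.sum_sdiff (Finset.subset_univ I)]
  have e1 : ∑ e ∈ I, ((if src e = v then (if e ∈ I then c e else 1) else 0) +
      (if dst e = v then (if e ∈ I then c e else 1) else 0)) = b v := by
    rw [← hc v]
    refine Finset.sum_congr rfl fun e he => ?_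
    simp only [he, if_true]
  have e2 : ∑ e ∈ univ \ I, ((if src e = v then (if e ∈ I then c e else 1) else 0) +
      (if dst e = v then (if e ∈ I then c e else 1) else 0)) =
      ∑ e ∈ univ \ I, ((if src e = v then (1 : ZMod 2) else 0) +
        (if dst e = v then 1 else 0)) := by
    refine Finset.sum_congr rfl fun e he => ?_
    simp only [(mem_sdiff.1 he).2, if_false]
  rw [e1, e2, hb]
  simp only
  generalize (∑ e ∈ univ \ I, ((if src e = v then (1 : ZMod 2) else 0) +
    (if dst e = v then 1 else 0))) = q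
  have : ∀ p q : ZMod 2, q + (p + q) = p := by decide
  exact this _ _

variable {V E : Type} [Fintype V] [DecidableEq V] [DecidableEq E] {s t : E → V} {S : Finset E}

/-- the edges with two different ends in `U` -/
def ins (s t : E → V) (S : Finset E) (U : Finset V) : Finset E :=
  S.filter (fun e => s e ∈ U ∧ t e ∈ U ∧ s e ≠ t e)

theorem mem_ins {U : Finset V} {e : E} :
    e ∈ ins s t S U ↔ e ∈ S ∧ s e ∈ U ∧ t e ∈ U ∧ s e ≠ t e := by
  unfold ins
  rw [mem_filter]

/-- two disjoint spanning sets -/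
theorem no_two (h : Mq s t S) (U : Finset V) (hU : 2 ≤ U.card)
    (hne : (ins s t S U).Nonempty)
    (hp : ∀ (c : ℕ) (π : {v // v ∈ U} → Fin c), Function.Surjective π →
      2 * c ≤ ((univ : Finset {e // e ∈ ins s t S U}).filter (fun e =>
        π ⟨s e.1, (mem_ins.1 e.2).2.1⟩ ≠ π ⟨t e.1, (mem_ins.1 e.2).2.2.1⟩)).card + 2) : False := by
  classical
  obtain ⟨e0, he0⟩ := hne
  have h00 := mem_ins.1 he0
  set u0 := s e0 with hu0
  have : Nonempty {v // v ∈ U} := ⟨⟨u0, h00.2.1⟩⟩
  obtain ⟨I, J, hd, hI, hJ⟩ := two_trees (fun e : {e // e ∈ ins s t S U} =>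
    (⟨s e.1, (mem_ins.1 e.2).2.1⟩ : {v // v ∈ U}))
    (fun e => ⟨t e.1, (mem_ins.1 e.2).2.2.1⟩) hp
  obtain ⟨φ, h1, h2⟩ := h.mn (fun v => if v ∈ U then u0 else v) ⟨e0, h00.1, h00.2.2.2, by
    have h1 : s e0 ∈ U := h00.2.1
    simp only [h1, h00.2.2.1, if_true]⟩
  have hY : ins s t S U ⊆ S := fun e he => (mem_ins.1 he).1
  obtain ⟨q1, q2⟩ := ident s t hY (A := U) (a := u0) h00.2.1
    (fun e he => ⟨(mem_ins.1 he).2.1, (mem_ins.1 he).2.2.1⟩) h2
  have q2' : ∑ v : {v // v ∈ U}, B s t (S \ ins s t S U) φ v.1 = 0 := by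
    rw [← q2]
    exact Finset.sum_coe_sort U (fun v => B s t (S \ ins s t S U) φ v)
  obtain ⟨z1, a1, b1⟩ := ext_span _ _ I hI (fun v => (B s t (S \ ins s t S U) φ v.1).1) (by
    have := congrArg Prod.fst q2'
    rwa [Prod.fst_sum] at this)
  obtain ⟨z2, a2, b2⟩ := ext_span _ _ J hJ (fun v => (B s t (S \ ins s t S U) φ v.1).2) (by
    have := congrArg Prod.snd q2'
    rwa [Prod.snd_sum] at this)
  apply h.nz
  refine close s t hY φ (fun e => if he : e ∈ ins s t S U then
    ((z1 ⟨e, he⟩, z2 ⟨e, he⟩) : F) else 0) (fun e he => h1 e (mem_sdiff.1 he).1) ?_ ?_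
  · intro e he
    simp only [he, dif_pos]
    intro h3
    have h4 := congrArg Prod.fst h3
    have h5 := congrArg Prod.snd h3
    simp only [Prod.fst_zero, Prod.snd_zero] at h4 h5
    by_cases h6 : (⟨e, he⟩ : {e // e ∈ ins s t S U}) ∈ I
    · have h7 : (⟨e, he⟩ : {e // e ∈ ins s t S U}) ∉ J := fun h8 => (disjoint_left.1 hd) h6 h8
      rw [a2 _ h7] at h5
      exact one_ne_zero h5
    · rw [a1 _ h6] at h4
      exact one_ne_zero h4
  · intro v
    by_cases hv : v ∈ U
    · have e1 : B s t (ins s t S U) (fun e => if he : e ∈ ins s t S U then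
          ((z1 ⟨e, he⟩, z2 ⟨e, he⟩) : F) else 0) v =
          ∑ e : {e // e ∈ ins s t S U}, ((if s e.1 = v then ((z1 e, z2 e) : F) else 0) +
            (if t e.1 = v then ((z1 e, z2 e) : F) else 0)) := by
        unfold B
        rw [← Finset.sum_coe_sort (ins s t S U)]
        refine Finset.sum_congr rfl fun e _ => ?_
        simp only [e.2, dif_pos]
      rw [e1]
      have c1 := b1 ⟨v, hv⟩
      have c2 := b2 ⟨v, hv⟩
      simp only [Subtype.mk.injEq] at c1 c2
      refine Prod.ext ?_ ?_
      · rw [Prod.fst_sum, ← c1]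
        refine Finset.sum_congr rfl fun e _ => ?_
        rw [Prod.fst_add]
        split_ifs <;> simp
      · rw [Prod.snd_sum, ← c2]
        refine Finset.sum_congr rfl fun e _ => ?_
        rw [Prod.snd_add]
        split_ifs <;> simp
    · rw [q1 v hv]
      unfold B
      refine Finset.sum_eq_zero fun e he => ?_
      have h3 := mem_ins.1 he
      rw [if_neg (fun h4 : s e = v => hv (h4 ▸ h3.2.1)),
        if_neg (fun h4 : t e = v => hv (h4 ▸ h3.2.2.1)), add_zero]

/-- `n ≥ 2` vertices of a minimal quotient span at most `2 n - 3` edges -/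
theorem sparse (h : Mq s t S) : ∀ (n : ℕ) (U : Finset V), U.card = n → 2 ≤ n →
    (ins s t S U).card + 3 ≤ 2 * n := by
  classical
  intro n
  induction n using Nat.strong_induction_on with
  | _ n ih =>
    intro U hUn hn
    by_contra hcon
    push Not at hcon
    refine no_two h U (by omega) (card_pos.1 (by omega)) ?_
    intro c π hπ
    rcases Nat.lt_or_ge c 2 with hc | hc
    · omega
    -- the classes
    set W : Fin c → Finset V := fun j => U.filter (fun v => ∃ hv : v ∈ U, π ⟨v, hv⟩ = j) with hW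
    have hmemW : ∀ j v, v ∈ W j ↔ ∃ hv : v ∈ U, π ⟨v, hv⟩ = j := by
      intro j v
      simp only [hW, mem_filter]
      exact ⟨fun h => h.2, fun h => ⟨h.1, h⟩⟩
    have hWne : ∀ j, (W j).Nonempty := by
      intro j
      obtain ⟨v, hv⟩ := hπ j
      exact ⟨v.1, (hmemW j _).2 ⟨v.2, hv⟩⟩
    have hdis : ∀ i j, i ≠ j → Disjoint (W i) (W j) := by
      intro i j hij
      rw [disjoint_left]
      intro v hvi hvj
      obtain ⟨h1, h2⟩ := (hmemW i v).1 hvi
      obtain ⟨h3, h4⟩ := (hmemW j v).1 hvj
      exact hij (h2.symm.trans h4)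
    have hunion : U = univ.biUnion W := by
      ext v
      rw [mem_biUnion]
      constructor
      · intro hv
        exact ⟨π ⟨v, hv⟩, mem_univ _, (hmemW _ _).2 ⟨hv, rfl⟩⟩
      · rintro ⟨j, -, hj⟩
        exact ((hmemW j v).1 hj).1
    have hsum : ∑ j, (W j).card = n := by
      rw [← card_biUnion (fun i _ j _ hij => hdis i j hij), ← hunion, hUn]
    have hsub : ∀ j, (W j).card < n := by
      intro j
      have : ∃ k, k ≠ j := by
        by_cases hj : j.1 = 0
        · exact ⟨⟨1, by omega⟩, fun h => by have := congrArg Fin.val h; simp at this; omega⟩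
        · exact ⟨⟨0, by omega⟩, fun h => by have := congrArg Fin.val h; simp at this; omega⟩
      obtain ⟨k, hk⟩ := this
      have h1 : (W j).card + (W k).card ≤ ∑ j, (W j).card := by
        rw [← Finset.sum_pair (f := fun j => (W j).card) (Ne.symm hk)]
        exact Finset.sum_le_sum_of_subset (subset_univ _)
      have h2 := card_pos.2 (hWne k)
      omega
    have hin : ∀ j, (ins s t S (W j)).card + 2 ≤ 2 * (W j).card := by
      intro j
      have h1 := card_pos.2 (hWne j)
      rcases Nat.lt_or_ge (W j).card 2 with h2 | h2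
      · have h3 : (W j).card = 1 := by omega
        obtain ⟨w, hw⟩ := card_eq_one.1 h3
        have : ins s t S (W j) = ∅ := by
          rw [Finset.eq_empty_iff_forall_notMem]
          intro e he
          obtain ⟨-, h4, h5, h6⟩ := mem_ins.1 he
          rw [hw, mem_singleton] at h4 h5
          exact h6 (h4.trans h5.symm)
        rw [this, card_empty]
        omega
      · have := ih _ (hsub j) (W j) rfl h2
        omega
    -- the edges
    have hsplit : (ins s t S U).card ≤ ((univ : Finset {e // e ∈ ins s t S U}).filter (fun e =>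
        π ⟨s e.1, (mem_ins.1 e.2).2.1⟩ ≠ π ⟨t e.1, (mem_ins.1 e.2).2.2.1⟩)).card +
        ∑ j, (ins s t S (W j)).card := by
      have h1 : ins s t S U ⊆ (((univ : Finset {e // e ∈ ins s t S U}).filter (fun e =>
        π ⟨s e.1, (mem_ins.1 e.2).2.1⟩ ≠ π ⟨t e.1, (mem_ins.1 e.2).2.2.1⟩)).image Subtype.val) ∪
        univ.biUnion (fun j => ins s t S (W j)) := by
        intro e he
        rw [mem_union]
        have h2 := mem_ins.1 he
        by_cases h3 : π ⟨s e, h2.2.1⟩ = π ⟨t e, h2.2.2.1⟩
        · right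
          rw [mem_biUnion]
          refine ⟨π ⟨s e, h2.2.1⟩, mem_univ _, mem_ins.2 ⟨h2.1, (hmemW _ _).2 ⟨h2.2.1, rfl⟩,
            (hmemW _ _).2 ⟨h2.2.2.1, h3.symm⟩, h2.2.2.2⟩⟩
        · left
          rw [mem_image]
          exact ⟨⟨e, he⟩, mem_filter.2 ⟨mem_univ _, h3⟩, rfl⟩
      refine (card_le_card h1).trans ((card_union_le _ _).trans ?_)
      exact Nat.add_le_add card_image_le card_biUnion_le
    have h5 : ∑ j, ((ins s t S (W j)).card + 2) ≤ ∑ j, 2 * (W j).card :=
      Finset.sum_le_sum fun j _ => hin j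
    rw [Finset.sum_add_distrib, ← Finset.mul_sum, hsum, Finset.sum_const, card_univ,
      Fintype.card_fin, smul_eq_mul] at h5
    omega

end Pool.Agent.T2H83.Fac
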